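import Pool.Agent.H932R4.MO.Stmts

/-! Task T9 of project H932-MO: most primes are zeros of the partial sum. -/

set_option autoImplicit false

open Finset Pool.Agent.H932R4.MO

namespace Pool.Agent.H380R3.MO

lemma asy (ε C : ℝ) (hε : 0 < ε) (hC : 0 < C) :
    ∃ N : ℕ, ∀ X : ℕ, N ≤ X → 16 * (Real.log X) ^ 3 ≤ C * (X : ℝ) ^ ε := by
  have h := (isLittleO_log_rpow_rpow_atTop (3 : ℝ) hε).bound (show 0 < C / 16 by positivity)
  have h' := tendsto_natCast_atTop_atTop.eventually h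
  obtain ⟨N, hN⟩ := Filter.eventually_atTop.1 h'
  refine ⟨N, fun X hX => ?_⟩
  have h1 := hN X hX
  have hl : 0 ≤ Real.log X := Real.log_natCast_nonneg X
  rw [Real.norm_of_nonneg (by positivity), Real.norm_of_nonneg (by positivity)] at h1
  have h2 : Real.log (X : ℝ) ^ (3 : ℝ) = Real.log (X : ℝ) ^ 3 := by
    rw [← Real.rpow_natCast]; norm_num
  rw [h2] at h1
  linarith

lemma Bd_nonneg (ε : ℝ) (n : ℕ) : 0 ≤ Bd ε n := by
  unfold Bd
  positivity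

lemma Bd_lower (ε : ℝ) (hε0 : 0 < ε) (hε1 : ε < 1) (X p : ℕ) (hX : 2 ≤ X) (hp : X < p)
    (hp2 : p ≤ 2 * X) : (X : ℝ) ^ (-1 + ε) / (8 * (Real.log X) ^ 2) ≤ Bd ε p := by
  have hXr : (2 : ℝ) ≤ X := by exact_mod_cast hX
  have hpr : (X : ℝ) < p := by exact_mod_cast hp
  have hpr2 : (p : ℝ) ≤ 2 * X := by exact_mod_cast hp2
  have hlX : 0 < Real.log X := Real.log_pos (by linarith)
  have hlp : 0 < Real.log p := Real.log_pos (by linarith)
  have h1 : Real.log p ≤ 2 * Real.log X := by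
    calc Real.log p ≤ Real.log (2 * X) := Real.log_le_log (by linarith) hpr2
      _ = Real.log 2 + Real.log X := Real.log_mul (by norm_num) (by linarith)
      _ ≤ Real.log X + Real.log X := by
        have := Real.log_le_log (by norm_num : (0:ℝ) < 2) hXr
        linarith
      _ = 2 * Real.log X := by ring
  have h2 : (1 / 2 : ℝ) * (X : ℝ) ^ (-1 + ε) ≤ (p : ℝ) ^ (-1 + ε) := by
    have h3 : (2 * X : ℝ) ^ (-1 + ε) ≤ (p : ℝ) ^ (-1 + ε) :=
      Real.rpow_le_rpow_of_nonpos (by linarith) hpr2 (by linarith)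
    have h4 : (2 * X : ℝ) ^ (-1 + ε) = (2 : ℝ) ^ (-1 + ε) * (X : ℝ) ^ (-1 + ε) :=
      Real.mul_rpow (by norm_num) (by linarith)
    have h5 : (1 / 2 : ℝ) ≤ (2 : ℝ) ^ (-1 + ε) := by
      have : (2 : ℝ) ^ (-1 : ℝ) ≤ (2 : ℝ) ^ (-1 + ε) :=
        Real.rpow_le_rpow_of_exponent_le (by norm_num) (by linarith)
      rw [Real.rpow_neg_one] at this
      linarith
    have h6 : 0 ≤ (X : ℝ) ^ (-1 + ε) := by positivity
    calc (1 / 2 : ℝ) * (X : ℝ) ^ (-1 + ε) ≤ (2 : ℝ) ^ (-1 + ε) * (X : ℝ) ^ (-1 + ε) :=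
          mul_le_mul_of_nonneg_right h5 h6
      _ = _ := h4.symm
      _ ≤ _ := h3
  have h7 : (Real.log p) ^ 2 ≤ 4 * (Real.log X) ^ 2 := by nlinarith
  unfold Bd
  rw [div_le_div_iff₀ (by positivity) (by positivity)]
  have h6 : 0 ≤ (X : ℝ) ^ (-1 + ε) := by positivity
  calc (X : ℝ) ^ (-1 + ε) * Real.log p ^ 2 ≤ (X : ℝ) ^ (-1 + ε) * (4 * (Real.log X) ^ 2) :=
        mul_le_mul_of_nonneg_left h7 h6
    _ = (1 / 2 * (X : ℝ) ^ (-1 + ε)) * (8 * Real.log X ^ 2) := by ring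
    _ ≤ (p : ℝ) ^ (-1 + ε) * (8 * Real.log X ^ 2) :=
        mul_le_mul_of_nonneg_right h2 (by positivity)

theorem t9 : T9 := by
  intro h2 h5 h6 h7 θ hθ0 hθ1 hSI κ hκ
  obtain ⟨c, hc, X0, hX0, hSI⟩ := hSI
  obtain ⟨N₁, hN₁, h5'⟩ := h5 θ (κ * c / 64) hθ0 hθ1 (by positivity)
  refine ⟨N₁, hN₁, fun N₀ hN₀ ε hε0 hε1 f hf hS => ?_⟩
  obtain ⟨n₀, hn₀⟩ := hS
  obtain ⟨X₁, hX₁, h5''⟩ := h5' N₀ hN₀
  have h3 : 3 ≤ N₀ := hN₁.trans hN₀
  obtain ⟨hfb, hbw⟩ := h2 ε N₀ f hε0 h3 hf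
  obtain ⟨h6a, h6b, -, -, -⟩ := h6 ε N₀ f hε0 h3 hf
  obtain ⟨X2, hX2⟩ := asy ε (κ * c) hε0 (by positivity)
  refine ⟨max (max X0 X₁) (max (max n₀ N₀) X2), fun X hX => ?_⟩
  have hXX0 : X0 ≤ X := by omega
  have hXX1 : X₁ ≤ X := by omega
  have hXn : n₀ ≤ X := by omega
  have hXN : N₀ ≤ X := by omega
  have hXX2 : X2 ≤ X := by omega
  have hX3 : 3 ≤ X := by omega
  have hXr : (3 : ℝ) ≤ X := by exact_mod_cast hX3
  have hl : 0 < Real.log X := Real.log_pos (by linarith)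
  have hθX : (X : ℝ) ^ θ ≤ (X : ℕ) := by
    calc (X : ℝ) ^ θ ≤ (X : ℝ) ^ (1 : ℝ) :=
          Real.rpow_le_rpow_of_exponent_le (by linarith) hθ1.le
      _ = X := Real.rpow_one _
  -- primes
  have hpr := hSI X X hXX0 hθX le_rfl
  -- drift
  have hdr := h5'' X X hXX1 hθX le_rfl
  rw [← two_mul] at hpr hdr
  -- the queue
  have hq := (h7 (fun n => n.Prime) (fun n => |S f n|) (fun n => |f n|) (fun n => Bd ε n)
    (fun n => abs_nonneg _) (fun n => abs_nonneg _) (fun n => Bd_nonneg ε n) X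
    (fun n hn hnp => h6a n (by omega) hnp)
    (fun n hn hnp => h6b n hnp (by omega)) (2 * X) (by omega)).2.2
  have hXe : 0 < (X : ℝ) ^ (-1 + ε) := by positivity
  have hsum : ∑ n ∈ (Ioc X (2 * X)).filter (fun n => ¬ n.Prime), |f n| ≤
      (X : ℝ) ^ (-1 + ε) * (κ * c / 64 * X / (Real.log X) ^ 3) := by
    calc ∑ n ∈ (Ioc X (2 * X)).filter (fun n => ¬ n.Prime), |f n|
        ≤ ∑ n ∈ (Ioc X (2 * X)).filter (fun n => ¬ n.Prime), (X : ℝ) ^ (-1 + ε) * bw N₀ n := by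
          refine Finset.sum_le_sum fun n hn => ?_
          have hn' := (Finset.mem_Ioc.1 (Finset.mem_filter.1 hn).1).1
          have hnr : (X : ℝ) < n := by exact_mod_cast hn'
          have h8 : (n : ℝ) ^ (-1 + ε) ≤ (X : ℝ) ^ (-1 + ε) :=
            Real.rpow_le_rpow_of_nonpos (by linarith) hnr.le (by linarith)
          calc |f n| ≤ bw N₀ n * (n : ℝ) ^ (-1 + ε) := hfb n
            _ ≤ bw N₀ n * (X : ℝ) ^ (-1 + ε) := mul_le_mul_of_nonneg_left h8 (hbw n).1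
            _ = _ := mul_comm _ _
      _ = (X : ℝ) ^ (-1 + ε) * ∑ n ∈ (Ioc X (2 * X)).filter (fun n => ¬ n.Prime), bw N₀ n := by
          rw [Finset.mul_sum]
      _ ≤ _ := by
          refine mul_le_mul_of_nonneg_left ?_ hXe.le
          convert hdr using 2
  set cnt : ℝ := (((Ioc X (2 * X)).filter (fun p => p.Prime ∧ S f p ≠ 0)).card : ℝ) with hcnt
  have hlow : cnt * ((X : ℝ) ^ (-1 + ε) / (8 * (Real.log X) ^ 2)) ≤
      ∑ n ∈ (Ioc X (2 * X)).filter (fun n => n.Prime ∧ |S f n| ≠ 0), Bd ε n := by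
    have e1 : (Ioc X (2 * X)).filter (fun n => n.Prime ∧ |S f n| ≠ 0) =
        (Ioc X (2 * X)).filter (fun p => p.Prime ∧ S f p ≠ 0) := by
      refine Finset.filter_congr fun n _ => ?_
      simp only [ne_eq, abs_eq_zero]
    rw [e1, hcnt, ← nsmul_eq_mul]
    refine Finset.card_nsmul_le_sum _ _ _ fun p hp => ?_
    obtain ⟨hp1, hp2⟩ := Finset.mem_Ioc.1 (Finset.mem_filter.1 hp).1
    exact Bd_lower ε hε0 hε1 X p (by omega) hp1 hp2
  have hmain : cnt * ((X : ℝ) ^ (-1 + ε) / (8 * (Real.log X) ^ 2)) ≤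
      1 + (X : ℝ) ^ (-1 + ε) * (κ * c / 64 * X / (Real.log X) ^ 3) := by
    refine hlow.trans ?_
    refine le_trans (le_of_eq ?_) (hq.trans (add_le_add (hn₀ X hXn) ?_))
    · refine Finset.sum_congr ?_ fun _ _ => rfl
      ext n; simp
    · refine le_trans (le_of_eq ?_) hsum
      refine Finset.sum_congr ?_ fun _ _ => rfl
      ext n; simp
  -- conclude
  have hXs : (X : ℝ) ^ ε = X * (X : ℝ) ^ (-1 + ε) := by
    rw [Real.rpow_add (by linarith), Real.rpow_neg_one]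
    field_simp
  have has := hX2 X hXX2
  rw [hXs] at has
  have hfin : cnt ≤ κ * (c * X / Real.log X) := by
    have hpos : 0 < (X : ℝ) ^ (-1 + ε) / (8 * (Real.log X) ^ 2) := by positivity
    refine le_of_mul_le_mul_right (hmain.trans ?_) hpos
    have e2 : κ * (c * X / Real.log X) * ((X : ℝ) ^ (-1 + ε) / (8 * (Real.log X) ^ 2)) =
        κ * c * (X * (X : ℝ) ^ (-1 + ε)) / (8 * (Real.log X) ^ 3) := by
      field_simp
    have e3 : (X : ℝ) ^ (-1 + ε) * (κ * c / 64 * X / (Real.log X) ^ 3) =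
        κ * c * (X * (X : ℝ) ^ (-1 + ε)) / (8 * (Real.log X) ^ 3) / 8 := by
      field_simp
      norm_num
    rw [e2, e3]
    have e4 : 2 ≤ κ * c * (X * (X : ℝ) ^ (-1 + ε)) / (8 * (Real.log X) ^ 3) := by
      rw [le_div_iff₀ (by positivity)]
      linarith
    linarith
  calc cnt ≤ κ * (c * X / Real.log X) := hfin
    _ ≤ _ := mul_le_mul_of_nonneg_left hpr hκ.le

end Pool.Agent.H380R3.MO
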